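import Pool.Agent.P.MP_4a08ba_lc.Pat

universe u v w

open Pool.Agent.P.MP_4a08ba_lc

theorem Pool.Agent.Results.MP_4a08ba_lc.PatternsWithIP.result :
    ∀ Q : ∀ L : FirstOrder.Language.{u, v}, L.Theory → Prop,
      (∀ L (T : L.Theory), T.IsComplete → Q L T → HasIP.{u, v, w} T) →
      ((∃ (S : Type) (_ : PartialOrder S), (∀ a b c d : S, ¬ (a < b ∧ b < c ∧ c < d)) ∧
          ∀ L (T : L.Theory), T.IsComplete → (Q L T ↔ HasSOP.{u, v, w} S T)) ↔
        ∃ (J : Type) (C : Set (Set J)) (I : J → J → Prop),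
          (∀ c ∈ C, ∀ i ∈ c, ∀ j ∈ c, ¬ I i j) ∧
          ∀ L (T : L.Theory), T.IsComplete → (Q L T ↔ HasPattern.{u, v, w} C I T)) :=
  Pool.Agent.P.MP_4a08ba_lc.height_three
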