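import Pool.Agent.P.MP_4a08ba_lc.Main

universe u v w

open Pool.Agent.P.MP_4a08ba_lc

theorem Pool.Agent.Results.MP_4a08ba_lc.TPPosetDefinable.result :
    ∃ (S : Type) (_ : PartialOrder S), ∀ (L : FirstOrder.Language.{u, v}) (T : L.Theory),
      HasTP.{u, v, w} T ↔ HasSOP.{u, v, w} S T :=
  Pool.Agent.P.MP_4a08ba_lc.main
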